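import Pool.Agent.H525.EX.Stm5

set_option autoImplicit false

namespace Pool.Agent.H51.EX

open Pool.Agent.H525.EX

/-- value `a` and derivative `b` at `1` of the Laurent polynomial with coefficients `f` -/
def HS (f : ℤ → ℝ) (a b : ℝ) : Prop := HasSum f a ∧ HasSum (fun e : ℤ => (e : ℝ) * f e) b

lemma HS.shift {f : ℤ → ℝ} {a b : ℝ} (h : HS f a b) (j : ℤ) :
    HS (fun e => f (e - j)) a (b + j * a) := by
  constructor
  · have := (Equiv.hasSum_iff (f := f) (a := a) (Equiv.subRight j)).2 h.1
    exact this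
  · have h1 : HasSum (fun e : ℤ => ((e : ℝ) + j) * f e) (b + j * a) := by
      have h2 := h.2.add (h.1.mul_left (j : ℝ))
      have h3 : (fun e : ℤ => ((e : ℝ) + j) * f e) = fun e : ℤ => (e : ℝ) * f e + j * f e := by
        funext e; ring
      rw [h3]; exact h2
    have h4 := (Equiv.hasSum_iff (f := fun e : ℤ => ((e : ℝ) + j) * f e) (a := b + j * a)
      (Equiv.subRight j)).2 h1
    have h5 : (fun e : ℤ => ((e : ℝ) + j) * f e) ∘ (Equiv.subRight j) =
        fun e : ℤ => (e : ℝ) * f (e - j) := by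
      funext e
      simp only [Function.comp, Equiv.subRight_apply]
      push_cast; ring
    rw [h5] at h4
    exact h4

lemma HS.add {f g : ℤ → ℝ} {a b c d : ℝ} (h : HS f a b) (h' : HS g c d) :
    HS (fun e => f e + g e) (a + c) (b + d) := by
  refine ⟨h.1.add h'.1, ?_⟩
  have := h.2.add h'.2
  simpa only [mul_add] using this

lemma HS.sub {f g : ℤ → ℝ} {a b c d : ℝ} (h : HS f a b) (h' : HS g c d) :
    HS (fun e => f e - g e) (a - c) (b - d) := by
  refine ⟨h.1.sub h'.1, ?_⟩
  have := h.2.sub h'.2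
  simpa only [mul_sub] using this

lemma HS.smul {f : ℤ → ℝ} {a b : ℝ} (h : HS f a b) (c : ℝ) :
    HS (fun e => c * f e) (c * a) (c * b) := by
  refine ⟨h.1.mul_left c, ?_⟩
  have h3 : (fun e : ℤ => (e : ℝ) * (c * f e)) = fun e : ℤ => c * ((e : ℝ) * f e) := by
    funext e; ring
  show HasSum (fun e : ℤ => (e : ℝ) * (c * f e)) (c * b)
  rw [h3]; exact h.2.mul_left c

lemma HS.unique {f g : ℤ → ℝ} {a b c d : ℝ} (h : HS f a b) (h' : HS g c d)
    (hfg : ∀ e, f e = g e) : a = c ∧ b = d := by
  have : f = g := funext hfg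
  subst this
  exact ⟨h.1.unique h'.1, h.2.unique h'.2⟩

lemma HS_of_support {f : ℤ → ℝ} (s : Finset ℤ) (h : ∀ e, e ∉ s → f e = 0) :
    HS f (∑ e ∈ s, f e) (∑ e ∈ s, (e : ℝ) * f e) :=
  ⟨hasSum_sum_of_ne_finset_zero h, hasSum_sum_of_ne_finset_zero fun e he => by
    rw [h e he, mul_zero]⟩

/-- the rows of an array of level `m` -/
lemma HS_lev {ε g : ℝ} {m : ℤ} {f : Arr} (hε : ε = 1 ∨ ε = -1) (hf : Lev ε g m f) (N : ℤ) :
    HS (f N) (if N = 0 then 1 else 0) (-dl f N) := by
  have h := HS_of_support (f := f N) (Finset.Icc (-N) (2 * N)) fun e he => by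
    simp only [Finset.mem_Icc, not_and_or, not_le] at he
    rcases he with he | he
    · exact hf.fs N e he
    · have h1 := hf.tau N e
      rw [hf.fn (2 * N - e) _ (by linarith)] at h1
      have hε0 : ε ^ ((e - N) / 2) ≠ 0 := by
        rcases hε with h | h <;> rw [h] <;> exact zpow_ne_zero _ (by norm_num)
      rcases mul_eq_zero.1 h1.symm with h2 | h2
      · exact absurd h2 hε0
      · exact h2
  have h2 : -dl f N = ∑ e ∈ Finset.Icc (-N) (2 * N), (e : ℝ) * f N e := by
    unfold dl; ring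
  rw [h2, ← hf.nor N]
  exact h

theorem t_lv2 : S_lv2 := by
  intro ε g m f f' hε hm hf hf' hR N
  have F := fun M => HS_lev hε hf M
  have F' := fun M => HS_lev hε hf' M
  have L := (((F' N).sub (((F' (N - m)).shift m).smul g)).sub
    (((F' (N - m - 2)).shift (m + 2)).smul (ε * g))).add
    (((F' (N - 2 * m - 2)).shift (2 * m + 2)).smul (ε * g ^ 2))
  have R := (((F N).sub (((F (N - m)).shift (m - 2)).smul g)).sub
    (((F (N - m - 2)).shift (m + 4)).smul (ε * g))).add
    (((F (N - 2 * m - 2)).shift (2 * m + 2)).smul (ε * g ^ 2))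
  have key := (L.unique R (fun e => by
    have h := hR N e
    have e1 : e - (m - 2) = e - m + 2 := by ring
    have e2 : e - (m + 2) = e - m - 2 := by ring
    have e3 : e - (m + 4) = e - m - 4 := by ring
    have e4 : e - (2 * m + 2) = e - 2 * m - 2 := by ring
    simp only [e1, e2, e3, e4]
    exact h)).2
  have e1 : (if N - m = 0 then (1 : ℝ) else 0) = if N = m then 1 else 0 := by
    simp only [sub_eq_zero]
  have e2 : (if N - m - 2 = 0 then (1 : ℝ) else 0) = if N = m + 2 then 1 else 0 := by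
    have : N - m - 2 = 0 ↔ N = m + 2 := by omega
    simp only [this]
  have e3 : (if N = m then 2 * g else 0) = 2 * g * if N = m then (1 : ℝ) else 0 := by
    split_ifs <;> simp
  have e4 : (if N = m + 2 then 2 * ε * g else 0) = 2 * ε * g * if N = m + 2 then (1 : ℝ) else 0 := by
    split_ifs <;> simp
  rw [e1, e2] at key
  rw [e3, e4]
  push_cast at key
  linarith

end Pool.Agent.H51.EX
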